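import Mathlib

/-!
Unique subset exchange is not symmetric.
-/

namespace Pool.Agent.Results.MP_2d361f_co.NotSymmetric

open Finset

/-- `exch M A B X` is the family `E(X; A, B)` of all `Y ⊆ B` such that `(A \ X) ∪ Y` and
`(B \ Y) ∪ X` are both bases of `M`. -/
def exch {α : Type} (M : Matroid α) (A B X : Set α) : Set (Set α) :=
  {Y | Y ⊆ B ∧ M.IsBase ((A \ X) ∪ Y) ∧ M.IsBase ((B \ Y) ∪ X)}

/-- `Step M S T`: the base sequence `T` arises from the base sequence `S` by a unique subset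
exchange: for some `i < j` and some `X ⊆ S i` the family `E(X; S i, S j)` consists of a single
set `Y`, and `T` is obtained from `S` by replacing the entries `i` and `j` by `(S i \ X) ∪ Y` and
`(S j \ Y) ∪ X`. -/
def Step {α : Type} (M : Matroid α) {m : ℕ} (S T : Fin m → Set α) : Prop :=
  ∃ i j : Fin m, i < j ∧ ∃ X Y : Set α, X ⊆ S i ∧ exch M (S i) (S j) X = {Y} ∧
    T i = (S i \ X) ∪ Y ∧ T j = (S j \ Y) ∪ X ∧ ∀ k, k ≠ i → k ≠ j → T k = S k

/-- `S ≃₃ T`: `T` can be reached from `S` by a finite chain of unique subset exchanges. -/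
def Reach {α : Type} (M : Matroid α) {m : ℕ} (S T : Fin m → Set α) : Prop :=
  Relation.ReflTransGen (Step M) S T

/-- bit mask to subset of `Fin 8` -/
def fs (m : ℕ) : Finset (Fin 8) := univ.filter (fun i => m.testBit i.val = true)

/-- the set of the masks of the bases, as one number -/
def BIG : ℕ := 1774342044350424398747467288712804109933293355111991822170229484074074112

def isB (m : ℕ) : Bool := Nat.testBit BIG m

theorem isB_lt (m : ℕ) (h : isB m = true) : m < 256 := by
  by_contra hm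
  unfold isB at h
  rw [Nat.testBit_lt_two_pow] at h
  · simp at h
  · calc BIG < 2 ^ 256 := by unfold BIG; norm_num
      _ ≤ 2 ^ m := Nat.pow_le_pow_right (by norm_num) (by omega)

theorem mem_fs (m : ℕ) (i : Fin 8) : i ∈ fs m ↔ m.testBit i.val = true := by
  simp [fs]

theorem fs_or (a b : ℕ) : fs (a ||| b) = fs a ∪ fs b := by
  ext i
  simp [mem_fs, Nat.testBit_or]

/-- difference of masks below 256 -/
def dif (a b : ℕ) : ℕ := a &&& (255 ^^^ b)

theorem fs_dif (a b : ℕ) : fs (dif a b) = fs a \ fs b := by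
  ext i
  have h : Nat.testBit 255 i.val = true := by
    revert i; decide
  simp only [dif, mem_fs, mem_sdiff, Nat.testBit_and, Nat.testBit_xor, h]
  simp

theorem fs_pow (x : Fin 8) : fs (2 ^ x.val) = {x} := by
  ext i
  rw [mem_fs, mem_singleton, Nat.testBit_two_pow]
  simp [Fin.ext_iff, eq_comm]

theorem fs_inj {a b : ℕ} (ha : a < 256) (hb : b < 256) (h : fs a = fs b) : a = b := by
  apply Nat.eq_of_testBit_eq
  intro i
  by_cases hi : i < 8
  · have h1 : ((⟨i, hi⟩ : Fin 8) ∈ fs a) ↔ ((⟨i, hi⟩ : Fin 8) ∈ fs b) := by rw [h]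
    rw [mem_fs, mem_fs] at h1
    exact Bool.eq_iff_iff.2 h1
  · have h2 : (256 : ℕ) ≤ 2 ^ i := by
      calc (256 : ℕ) = 2 ^ 8 := by norm_num
        _ ≤ 2 ^ i := Nat.pow_le_pow_right (by norm_num) (by omega)
    rw [Nat.testBit_lt_two_pow (lt_of_lt_of_le ha h2),
      Nat.testBit_lt_two_pow (lt_of_lt_of_le hb h2)]

theorem exists_mask (X : Set (Fin 8)) : ∃ x < 256, X = ((fs x : Finset (Fin 8)) : Set (Fin 8)) := by
  classical
  refine ⟨Nat.ofBits (fun i : Fin 8 => decide (i ∈ X)), ?_, ?_⟩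
  · exact Nat.ofBits_lt_two_pow _
  · ext i
    rw [mem_coe, mem_fs, Nat.testBit_ofBits_lt _ _ i.isLt]
    simp

/-- the exchange property for two masks -/
def exchP (m m' : ℕ) : Prop :=
  ∀ x : Fin 8, m.testBit x.val = true → m'.testBit x.val = false →
      ∃ y : Fin 8, m'.testBit y.val = true ∧ m.testBit y.val = false ∧
        isB (2 ^ y.val ||| dif m (2 ^ x.val)) = true

instance (m m' : ℕ) : Decidable (exchP m m') := by unfold exchP; infer_instance

theorem exchange_ok : ∀ m < 256, isB m = true → ∀ m' < 256, isB m' = true → exchP m m' := by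
  decide +kernel

/-- The matroid: rank 4 on 8 elements. -/
noncomputable def M8 : Matroid (Fin 8) :=
  Matroid.ofIsBaseOfFinite (E := Set.univ) Set.finite_univ
    (fun B => ∃ m, isB m = true ∧ B = ((fs m : Finset (Fin 8)) : Set (Fin 8)))
    ⟨_, 0x2e, by decide +kernel, rfl⟩
    (by
      rintro _ _ ⟨m, hm, rfl⟩ ⟨m', hm', rfl⟩ x hx
      rw [← coe_sdiff, mem_coe, mem_sdiff, mem_fs, mem_fs, Bool.not_eq_true] at hx
      obtain ⟨y, hy, hy', h⟩ := exchange_ok m (isB_lt _ hm) hm m' (isB_lt _ hm') hm' x hx.1 hx.2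
      refine ⟨y, ?_, _, h, ?_⟩
      · rw [← coe_sdiff, mem_coe, mem_sdiff, mem_fs, mem_fs, Bool.not_eq_true]
        exact ⟨hy, hy'⟩
      · rw [fs_or, fs_dif, fs_pow, fs_pow, coe_union, coe_sdiff, coe_singleton, coe_singleton,
          Set.singleton_union])
    (fun _ _ => Set.subset_univ _)

theorem M8_isBase (m : ℕ) (hm : m < 256) :
    M8.IsBase ((fs m : Finset (Fin 8)) : Set (Fin 8)) ↔ isB m = true := by
  constructor
  · rintro ⟨m', hm', h⟩
    have := fs_inj hm (isB_lt _ hm') (Finset.coe_injective h)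
    rw [this]; exact hm'
  · intro h
    exact ⟨m, h, rfl⟩

/-- mask version of membership in `E(X; A, B)` -/
def good (a b x y : ℕ) : Bool := isB (dif a x ||| y) && isB (dif b y ||| x)

theorem dif_lt (a b : ℕ) (ha : a < 256) : dif a b < 256 := lt_of_le_of_lt Nat.and_le_left ha

theorem or_lt {a b : ℕ} (ha : a < 256) (hb : b < 256) : a ||| b < 256 :=
  Nat.or_lt_two_pow (n := 8) ha hb

theorem sub_iff {x a : ℕ} (hx : x < 256) (ha : a < 256) :
    ((fs x : Finset (Fin 8)) : Set (Fin 8)) ⊆ ((fs a : Finset (Fin 8)) : Set (Fin 8)) ↔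
      dif x a = 0 := by
  rw [coe_subset, ← sdiff_eq_empty_iff_subset, ← fs_dif]
  constructor
  · intro h
    exact fs_inj (dif_lt _ _ hx) (by norm_num) (by rw [h]; decide +kernel)
  · intro h
    rw [h]; decide +kernel

theorem mem_exch {a b x y : ℕ} (ha : a < 256) (hb : b < 256) (hx : x < 256) (hy : y < 256) :
    ((fs y : Finset (Fin 8)) : Set (Fin 8)) ∈ exch M8 (fs a) (fs b) (fs x) ↔
      dif y b = 0 ∧ good a b x y = true := by
  unfold exch
  rw [Set.mem_ofPred_eq, sub_iff hy hb, ← coe_sdiff, ← coe_sdiff, ← coe_union, ← coe_union,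
    ← fs_dif, ← fs_dif, ← fs_or, ← fs_or, M8_isBase _ (or_lt (dif_lt _ _ ha) hy),
    M8_isBase _ (or_lt (dif_lt _ _ hb) hx)]
  simp [good]

/-- From the pair `(0x96, 0x69)` every unique subset exchange is trivial or swaps. -/
theorem trap_ok : ∀ a ∈ [0x96, 0x69], ∀ x < 256, dif x a = 0 →
    (∃ y₁ < 256, dif y₁ (255 ^^^ a) = 0 ∧ good a (255 ^^^ a) x y₁ = true ∧
      ∃ y₂ < 256, dif y₂ (255 ^^^ a) = 0 ∧ good a (255 ^^^ a) x y₂ = true ∧ y₁ ≠ y₂) ∨
    (∀ y < 256, dif y (255 ^^^ a) = 0 → good a (255 ^^^ a) x y = true →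
      ((dif a x ||| y = a ∧ dif (255 ^^^ a) y ||| x = 255 ^^^ a) ∨
        (dif a x ||| y = 255 ^^^ a ∧ dif (255 ^^^ a) y ||| x = a))) := by
  decide +kernel

theorem first_ok : ∀ y < 256, dif y 0xd1 = 0 → (good 0x2e 0xd1 0x28 y = true ↔ y = 0x90) := by
  decide +kernel

/-- the pair of sets with masks `a` and `255 - a` -/
def pr (a : ℕ) : Fin 2 → Set (Fin 8) :=
  ![((fs a : Finset (Fin 8)) : Set (Fin 8)), ((fs (255 ^^^ a) : Finset (Fin 8)) : Set (Fin 8))]

theorem xor_lt {a : ℕ} (ha : a < 256) : 255 ^^^ a < 256 :=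
  Nat.xor_lt_two_pow (n := 8) (by norm_num) ha

theorem step_trap (a : ℕ) (ha : a ∈ [0x96, 0x69]) (T : Fin 2 → Set (Fin 8))
    (h : Step M8 (pr a) T) : T = pr a ∨ T = pr (255 ^^^ a) := by
  have hal : a < 256 := by
    simp only [List.mem_cons, List.not_mem_nil, or_false] at ha
    omega
  obtain ⟨i, j, hij, X, Y, hX, hE, h1, h2, -⟩ := h
  have hi : i = 0 := by omega
  have hj : j = 1 := by omega
  subst hi hj
  have e0 : pr a 0 = ((fs a : Finset (Fin 8)) : Set (Fin 8)) := rfl
  have e1 : pr a 1 = ((fs (255 ^^^ a) : Finset (Fin 8)) : Set (Fin 8)) := rfl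
  rw [e0] at hX hE h1
  rw [e1] at hE h2
  obtain ⟨x, hx, rfl⟩ := exists_mask X
  obtain ⟨y, hy, rfl⟩ := exists_mask Y
  rw [sub_iff hx hal] at hX
  have hb := xor_lt hal
  have hyE : ((fs y : Finset (Fin 8)) : Set (Fin 8)) ∈ exch M8 (fs a) (fs (255 ^^^ a)) (fs x) := by
    rw [hE]; exact Set.mem_singleton _
  rw [mem_exch hal hb hx hy] at hyE
  rcases trap_ok a ha x hx hX with ⟨y₁, hy₁, hd₁, hg₁, y₂, hy₂, hd₂, hg₂, hne⟩ | hall
  · exfalso
    have m1 := (mem_exch hal hb hx hy₁).2 ⟨hd₁, hg₁⟩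
    have m2 := (mem_exch hal hb hx hy₂).2 ⟨hd₂, hg₂⟩
    rw [hE, Set.mem_singleton_iff] at m1 m2
    exact hne (fs_inj hy₁ hy₂ (Finset.coe_injective (m1.trans m2.symm)))
  · have key := hall y hy hyE.1 hyE.2
    rw [← coe_sdiff, ← coe_union, ← fs_dif, ← fs_or] at h1 h2
    have xx : 255 ^^^ (255 ^^^ a) = a := by
      rw [← Nat.xor_assoc, Nat.xor_self, Nat.zero_xor]
    rcases key with ⟨k1, k2⟩ | ⟨k1, k2⟩
    · left
      funext k
      fin_cases k
      · show T 0 = _
        rw [h1, k1]; rfl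
      · show T 1 = _
        rw [h2, k2]; rfl
    · right
      funext k
      fin_cases k
      · show T 0 = _
        rw [h1, k1]; rfl
      · show T 1 = _
        rw [h2, k2]
        unfold pr
        rw [xx]; rfl

theorem reach_trap (T : Fin 2 → Set (Fin 8)) (h : Relation.ReflTransGen (Step M8) (pr 0x96) T) :
    T = pr 0x96 ∨ T = pr 0x69 := by
  induction h with
  | refl => left; rfl
  | tail _ hs ih =>
    rcases ih with rfl | rfl
    · rcases step_trap 0x96 (by simp) _ hs with h | h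
      · left; exact h
      · right; exact h
    · rcases step_trap 0x69 (by simp) _ hs with h | h
      · right; exact h
      · left; exact h

theorem first_step : Step M8 (pr 0x2e) (pr 0x96) := by
  refine ⟨0, 1, by decide, fs 0x28, fs 0x90, ?_, ?_, ?_, ?_, ?_⟩
  · show ((fs 0x28 : Finset (Fin 8)) : Set (Fin 8)) ⊆ fs 0x2e
    rw [sub_iff (by norm_num) (by norm_num)]; decide
  · show exch M8 (fs 0x2e) (fs 0xd1) (fs 0x28) = _
    ext Y
    obtain ⟨y, hy, rfl⟩ := exists_mask Y
    rw [mem_exch (by norm_num) (by norm_num) (by norm_num) hy, Set.mem_singleton_iff]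
    constructor
    · rintro ⟨h1, h2⟩
      rw [(first_ok y hy h1).1 h2]
    · intro h
      have : y = 0x90 := fs_inj hy (by norm_num) (Finset.coe_injective h)
      subst this
      refine ⟨by decide, (first_ok 0x90 (by norm_num) (by decide)).2 rfl⟩
  · show ((fs 0x96 : Finset (Fin 8)) : Set (Fin 8)) = (↑(fs 0x2e) \ ↑(fs 0x28)) ∪ ↑(fs 0x90)
    rw [← coe_sdiff, ← coe_union]
    congr 1
  · show ((fs (255 ^^^ 0x96) : Finset (Fin 8)) : Set (Fin 8)) =
      (↑(fs (255 ^^^ 0x2e)) \ ↑(fs 0x90)) ∪ ↑(fs 0x28)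
    rw [← coe_sdiff, ← coe_union]
    congr 1
    decide +kernel
  · intro k h0 h1
    omega

theorem fs_ne {a b : ℕ} (ha : a < 256) (hb : b < 256) (h : a ≠ b) :
    ((fs a : Finset (Fin 8)) : Set (Fin 8)) ≠ ((fs b : Finset (Fin 8)) : Set (Fin 8)) :=
  fun hh => h (fs_inj ha hb (Finset.coe_injective hh))

/-- The relation `≃₃` is not symmetric: there are a matroid on 8 elements and base sequences
`S`, `T` with two entries such that `T` is reachable from `S` by unique subset exchanges, while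
`S` is not reachable from `T`. -/
theorem result : ∃ (M : Matroid (Fin 8)) (S T : Fin 2 → Set (Fin 8)),
    (∀ i, M.IsBase (S i)) ∧ (∀ i, M.IsBase (T i)) ∧ Reach M S T ∧ ¬ Reach M T S := by
  refine ⟨M8, pr 0x2e, pr 0x96, ?_, ?_, Relation.ReflTransGen.single first_step, ?_⟩
  · intro i
    fin_cases i
    · exact (M8_isBase 0x2e (by norm_num)).2 (by decide +kernel)
    · exact (M8_isBase 0xd1 (by norm_num)).2 (by decide +kernel)
  · intro i
    fin_cases i
    · exact (M8_isBase 0x96 (by norm_num)).2 (by decide +kernel)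
    · exact (M8_isBase 0x69 (by norm_num)).2 (by decide +kernel)
  · intro h
    rcases reach_trap _ h with h | h
    · exact fs_ne (by norm_num) (by norm_num) (by norm_num : (0x2e : ℕ) ≠ 0x96) (congrFun h 0)
    · exact fs_ne (by norm_num) (by norm_num) (by norm_num : (0x2e : ℕ) ≠ 0x69) (congrFun h 0)

end Pool.Agent.Results.MP_2d361f_co.NotSymmetric
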